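import Pool.Agent.H537ES.Burr

/-!
Burr's conjecture holds for every antidirected tree.
-/

set_option autoImplicit false

namespace Pool.Agent.Results.MP_6241b7_co.AntidirectedTrees

/-- For `k ≥ 1`, every finite oriented graph whose underlying graph has chromatic number at least
`2k` contains, as a subdigraph, every antidirected tree with `k` edges (`k+1` vertices): every
oriented tree in which no arc `a → b` is followed by an arc `b → c`, i.e. in which every vertex is
a source or a sink. -/
theorem result (k n : ℕ) (D : Fin n → Fin n → Prop) (hk : 1 ≤ k)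
    (hD : ∀ x y, D x y → ¬ D y x)
    (hchi : ((2 * k : ℕ) : ℕ∞) ≤ (SimpleGraph.fromRel D).chromaticNumber)
    (T : Fin (k + 1) → Fin (k + 1) → Prop)
    (hT : (SimpleGraph.fromRel T).IsTree)
    (hanti : ∀ a b c, T a b → ¬ T b c) :
    ∃ f : Fin (k + 1) → Fin n, Function.Injective f ∧ ∀ a b, T a b → D (f a) (f b) :=
  H537ES.burr_antidirected k n D hk hD hchi T hT hanti

end Pool.Agent.Results.MP_6241b7_co.AntidirectedTrees
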